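import Pool.Agent.Lib.EinsteinSix.Sl.B1.Def

set_option maxRecDepth 100000

namespace EinsteinSix.Sl

theorem ckB1_0 : ckB1 0 = true := by decide +kernel
theorem ckB1_13 : ckB1 13 = true := by decide +kernel
theorem ckB1_24 : ckB1 24 = true := by decide +kernel
theorem ckB1_27 : ckB1 27 = true := by decide +kernel
theorem ckB1_34 : ckB1 34 = true := by decide +kernel

end EinsteinSix.Sl
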