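import Pool.Agent.Lib.EinsteinSix.Sl.B1.Def

set_option maxRecDepth 100000

namespace EinsteinSix.Sl

theorem ckB1_1 : ckB1 1 = true := by decide +kernel
theorem ckB1_9 : ckB1 9 = true := by decide +kernel
theorem ckB1_20 : ckB1 20 = true := by decide +kernel
theorem ckB1_26 : ckB1 26 = true := by decide +kernel
theorem ckB1_42 : ckB1 42 = true := by decide +kernel
theorem ckB1_46 : ckB1 46 = true := by decide +kernel
theorem ckB1_47 : ckB1 47 = true := by decide +kernel
theorem ckB1_48 : ckB1 48 = true := by decide +kernel
theorem ckB1_49 : ckB1 49 = true := by decide +kernel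
theorem ckB1_50 : ckB1 50 = true := by decide +kernel
theorem ckB1_51 : ckB1 51 = true := by decide +kernel
theorem ckB1_52 : ckB1 52 = true := by decide +kernel
theorem ckB1_53 : ckB1 53 = true := by decide +kernel
theorem ckB1_54 : ckB1 54 = true := by decide +kernel
theorem ckB1_55 : ckB1 55 = true := by decide +kernel
theorem ckB1_56 : ckB1 56 = true := by decide +kernel
theorem ckB1_57 : ckB1 57 = true := by decide +kernel
theorem ckB1_58 : ckB1 58 = true := by decide +kernel
theorem ckB1_59 : ckB1 59 = true := by decide +kernel
theorem ckB1_60 : ckB1 60 = true := by decide +kernel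
theorem ckB1_61 : ckB1 61 = true := by decide +kernel
theorem ckB1_62 : ckB1 62 = true := by decide +kernel
theorem ckB1_63 : ckB1 63 = true := by decide +kernel
theorem ckB1_64 : ckB1 64 = true := by decide +kernel
theorem ckB1_65 : ckB1 65 = true := by decide +kernel
theorem ckB1_66 : ckB1 66 = true := by decide +kernel
theorem ckB1_67 : ckB1 67 = true := by decide +kernel
theorem ckB1_68 : ckB1 68 = true := by decide +kernel
theorem ckB1_69 : ckB1 69 = true := by decide +kernel
theorem ckB1_70 : ckB1 70 = true := by decide +kernel
theorem ckB1_71 : ckB1 71 = true := by decide +kernel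
theorem ckB1_72 : ckB1 72 = true := by decide +kernel
theorem ckB1_73 : ckB1 73 = true := by decide +kernel
theorem ckB1_74 : ckB1 74 = true := by decide +kernel
theorem ckB1_75 : ckB1 75 = true := by decide +kernel

end EinsteinSix.Sl
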