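import Pool.Agent.Lib.EinsteinSix.Sl.B1.Def

set_option maxRecDepth 100000

namespace EinsteinSix.Sl

theorem ckB1_8 : ckB1 8 = true := by decide +kernel
theorem ckB1_10 : ckB1 10 = true := by decide +kernel
theorem ckB1_17 : ckB1 17 = true := by decide +kernel
theorem ckB1_19 : ckB1 19 = true := by decide +kernel
theorem ckB1_33 : ckB1 33 = true := by decide +kernel
theorem ckB1_44 : ckB1 44 = true := by decide +kernel

end EinsteinSix.Sl
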