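import Pool.Agent.Lib.EinsteinSix.Sl.B1.Def

set_option maxRecDepth 100000

namespace EinsteinSix.Sl

theorem ckB1_18 : ckB1 18 = true := by decide +kernel
theorem ckB1_31 : ckB1 31 = true := by decide +kernel
theorem ckB1_35 : ckB1 35 = true := by decide +kernel
theorem ckB1_37 : ckB1 37 = true := by decide +kernel
theorem ckB1_40 : ckB1 40 = true := by decide +kernel
theorem ckB1_45 : ckB1 45 = true := by decide +kernel

end EinsteinSix.Sl
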