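import Pool.Agent.Lib.EinsteinSix.Sl.B1.Def

set_option maxRecDepth 100000

namespace EinsteinSix.Sl

theorem ckB1_2 : ckB1 2 = true := by decide +kernel
theorem ckB1_11 : ckB1 11 = true := by decide +kernel
theorem ckB1_21 : ckB1 21 = true := by decide +kernel
theorem ckB1_36 : ckB1 36 = true := by decide +kernel
theorem ckB1_38 : ckB1 38 = true := by decide +kernel
theorem ckB1_43 : ckB1 43 = true := by decide +kernel

end EinsteinSix.Sl
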