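import Pool.Agent.Lib.EinsteinSix.Sl.B1.Def

set_option maxRecDepth 100000

namespace EinsteinSix.Sl

theorem ckB1_6 : ckB1 6 = true := by decide +kernel
theorem ckB1_14 : ckB1 14 = true := by decide +kernel
theorem ckB1_25 : ckB1 25 = true := by decide +kernel
theorem ckB1_29 : ckB1 29 = true := by decide +kernel
theorem ckB1_30 : ckB1 30 = true := by decide +kernel
theorem ckB1_39 : ckB1 39 = true := by decide +kernel

end EinsteinSix.Sl
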