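import Pool.Agent.Lib.EinsteinSix.Sl.B1.Def

set_option maxRecDepth 100000

namespace EinsteinSix.Sl

theorem ckB1_3 : ckB1 3 = true := by decide +kernel
theorem ckB1_5 : ckB1 5 = true := by decide +kernel
theorem ckB1_12 : ckB1 12 = true := by decide +kernel
theorem ckB1_22 : ckB1 22 = true := by decide +kernel
theorem ckB1_23 : ckB1 23 = true := by decide +kernel
theorem ckB1_28 : ckB1 28 = true := by decide +kernel

end EinsteinSix.Sl
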