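import Pool.Agent.Lib.EinsteinSix.Sl.B1.Def

set_option maxRecDepth 100000

namespace EinsteinSix.Sl

theorem ckB1_4 : ckB1 4 = true := by decide +kernel
theorem ckB1_7 : ckB1 7 = true := by decide +kernel
theorem ckB1_15 : ckB1 15 = true := by decide +kernel
theorem ckB1_16 : ckB1 16 = true := by decide +kernel
theorem ckB1_32 : ckB1 32 = true := by decide +kernel
theorem ckB1_41 : ckB1 41 = true := by decide +kernel

end EinsteinSix.Sl
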