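import Pool.Agent.Lib.EinsteinSix.Sl.B1.Chk0
import Pool.Agent.Lib.EinsteinSix.Sl.B1.Chk1
import Pool.Agent.Lib.EinsteinSix.Sl.B1.Chk2
import Pool.Agent.Lib.EinsteinSix.Sl.B1.Chk3
import Pool.Agent.Lib.EinsteinSix.Sl.B1.Chk4
import Pool.Agent.Lib.EinsteinSix.Sl.B1.Chk5
import Pool.Agent.Lib.EinsteinSix.Sl.B1.Chk6
import Pool.Agent.Lib.EinsteinSix.Sl.B1.Chk7

namespace EinsteinSix.Sl

theorem ckB1_all : ∀ k < 76, ckB1 k = true := by
  intro k hk
  match k, hk with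
  | 0, _ => exact ckB1_0
  | 1, _ => exact ckB1_1
  | 2, _ => exact ckB1_2
  | 3, _ => exact ckB1_3
  | 4, _ => exact ckB1_4
  | 5, _ => exact ckB1_5
  | 6, _ => exact ckB1_6
  | 7, _ => exact ckB1_7
  | 8, _ => exact ckB1_8
  | 9, _ => exact ckB1_9
  | 10, _ => exact ckB1_10
  | 11, _ => exact ckB1_11
  | 12, _ => exact ckB1_12
  | 13, _ => exact ckB1_13
  | 14, _ => exact ckB1_14
  | 15, _ => exact ckB1_15
  | 16, _ => exact ckB1_16
  | 17, _ => exact ckB1_17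
  | 18, _ => exact ckB1_18
  | 19, _ => exact ckB1_19
  | 20, _ => exact ckB1_20
  | 21, _ => exact ckB1_21
  | 22, _ => exact ckB1_22
  | 23, _ => exact ckB1_23
  | 24, _ => exact ckB1_24
  | 25, _ => exact ckB1_25
  | 26, _ => exact ckB1_26
  | 27, _ => exact ckB1_27
  | 28, _ => exact ckB1_28
  | 29, _ => exact ckB1_29
  | 30, _ => exact ckB1_30
  | 31, _ => exact ckB1_31
  | 32, _ => exact ckB1_32
  | 33, _ => exact ckB1_33
  | 34, _ => exact ckB1_34
  | 35, _ => exact ckB1_35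
  | 36, _ => exact ckB1_36
  | 37, _ => exact ckB1_37
  | 38, _ => exact ckB1_38
  | 39, _ => exact ckB1_39
  | 40, _ => exact ckB1_40
  | 41, _ => exact ckB1_41
  | 42, _ => exact ckB1_42
  | 43, _ => exact ckB1_43
  | 44, _ => exact ckB1_44
  | 45, _ => exact ckB1_45
  | 46, _ => exact ckB1_46
  | 47, _ => exact ckB1_47
  | 48, _ => exact ckB1_48
  | 49, _ => exact ckB1_49
  | 50, _ => exact ckB1_50
  | 51, _ => exact ckB1_51
  | 52, _ => exact ckB1_52
  | 53, _ => exact ckB1_53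
  | 54, _ => exact ckB1_54
  | 55, _ => exact ckB1_55
  | 56, _ => exact ckB1_56
  | 57, _ => exact ckB1_57
  | 58, _ => exact ckB1_58
  | 59, _ => exact ckB1_59
  | 60, _ => exact ckB1_60
  | 61, _ => exact ckB1_61
  | 62, _ => exact ckB1_62
  | 63, _ => exact ckB1_63
  | 64, _ => exact ckB1_64
  | 65, _ => exact ckB1_65
  | 66, _ => exact ckB1_66
  | 67, _ => exact ckB1_67
  | 68, _ => exact ckB1_68
  | 69, _ => exact ckB1_69
  | 70, _ => exact ckB1_70
  | 71, _ => exact ckB1_71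
  | 72, _ => exact ckB1_72
  | 73, _ => exact ckB1_73
  | 74, _ => exact ckB1_74
  | 75, _ => exact ckB1_75
  | n + 76, h => exact absurd h (by omega)

end EinsteinSix.Sl
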