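import Pool.Agent.Lib.EinsteinSix.Sl.B1.ChkAll
import Pool.Agent.Lib.EinsteinSix.Sl.Pos
import Pool.Agent.Lib.EinsteinSix.HopfTP
import Pool.Agent.Lib.H56S.OkF

/-!
# Slice B1: `3 ≤ trT ≤ 4`
-/

set_option maxRecDepth 100000

open Finset H91.Split

namespace EinsteinSix.Sl

open HopfKC HopfKC.NT HopfKC.Gs

theorem okF_B1 : I76.all (ckFw fTB1) = true := all_ckFw_of_ckFu (by decide +kernel)

theorem okT_B1 : tmsB1.all tyOK = true := by decide +kernel

theorem okS_B1_0 : ckG (rw1 rowSB1_0) 1 (fun _ _ => sliceL (-3) 1) = true := by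
  decide +kernel

theorem okS_B1_1 : ckG (rw1 rowSB1_1) 1 (fun _ _ => sliceL 4 (-1)) = true := by
  decide +kernel

theorem types_B1 : (tmsB1.all fun t => Nat.blt t.1 10) = true := by decide +kernel

theorem slack_B1 : (I76.all fun i => bif Nat.beq i 0 then (en (col tmB1_50.2.2 i)) == [(0, 1, 0)]
      else (en (col tmB1_50.2.2 i)) == []) = true := by decide +kernel

theorem slackW_B1 : ckR 1 tmB1_50.2.2 = true := by decide +kernel

theorem last_B1 : tmB1_50 ∈ tmsB1 := by
  unfold tmsB1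
  simp only [List.mem_cons, true_or, or_true]

theorem const_B1 : 12 * NNB1 ≤ 192 * tmB1_50.2.1 := by decide +kernel

theorem NNB1_pos : 0 < NNB1 := by decide +kernel

theorem pos_B1 {S : T6} (h : AdmE S) (h1 : 3 ≤ trT S) (h2 : trT S ≤ 4) :
    ∀ t ∈ tmsB1, 0 ≤ V (kpg (rwg rowsB1 t.1) t.2.2) (cv 1 S) := by
  intro t ht
  have hok := List.all_eq_true.1 okT_B1 t ht
  have hty : t.1 < 10 := Nat.le_of_ble_eq_true (List.all_eq_true.1 types_B1 t ht)
  have hrows : rowsB1 = allRows [rowSB1_0, rowSB1_1] := rfl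
  rw [hrows]
  by_cases h8 : t.1 < 8
  · exact pos_common _ h h8 hok
  · have h9 : t.1 = 8 ∨ t.1 = 9 := by omega
    obtain ⟨a, d, W⟩ := t
    rcases h9 with h9 | h9
    · simp only at h9
      subst h9
      exact slice_nonneg (α := -3) (β := 1) h.alg okS_B1_0 hok (by push_cast; linarith)
    · simp only at h9
      subst h9
      exact slice_nonneg (α := 4) (β := -1) h.alg okS_B1_1 hok (by push_cast; linarith)

/-- Slice B1 with slack, for maximisers. -/
theorem main_B1 {S : T6} (h : AdmE S) (h1 : 3 ≤ trT S) (h2 : trT S ≤ 4)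
    (hmax : ∀ g : M6, IsBlk g → g.transpose * g = 1 →
      P (fun k i j => (fhw fTB1 k i j : ℝ)) 76 (vq qd (H91.Split.rot g S)) ≤
        P (fun k i j => (fhw fTB1 k i j : ℝ)) 76 (vq qd S)) :
    12 * trT S ≤ HopfSix.gaussBonnet S + 96 * (4 - trT S) * ell (react S) := by
  have hD : ∀ D : ℕ, AdmE (H91.Split.rot (dg D) S) := fun D => h.rot (dg_blk D) (dg_orth D)
  have key := slice_main (N := NNB1) (e := tb) (T := fTB1) (rows := rowsB1) (tms := tmsB1)
    ckB1_all okF_B1 h hmax
    (fun D => pos_B1 (hD D) (by rw [trT_dg h]; exact h1) (by rw [trT_dg h]; exact h2))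
    last_B1 (fun D => by
      have := V_slack (hD D) (r := rw1 rowS0) ok_S0 slackW_B1 slack_B1
      rw [trT_dg h] at this
      exact this)
    (c := (HopfSix.gaussBonnet S + 96 * (4 - trT S) * ell (react S)) / 96) (fun D => by
      have := target_B (hD D).lin
      rw [gb_rot S (dg_orth D), trT_dg h, ell_react_rot_blk h.alg (dg_blk D) (dg_orth D)] at this
      rw [this]
      ring)
  have h3 : (12 : ℝ) * (NNB1 : ℝ) ≤ 192 * (tmB1_50.2.1 : ℝ) := by exact_mod_cast const_B1
  have h4 : (0 : ℝ) < (NNB1 : ℝ) := by exact_mod_cast NNB1_pos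
  have h5 := mul_le_mul_of_nonneg_right h3 (trT_nonneg_of h)
  by_contra hlt
  rw [not_le] at hlt
  have h6 := mul_lt_mul_of_pos_left hlt h4
  linarith

/-- **Slice B1** with slack. -/
theorem slice_B1 {R : T6} (h : AdmE R) (h1 : 3 ≤ trT R) (h2 : trT R ≤ 4) :
    12 * trT R ≤ HopfSix.gaussBonnet R + 96 * (4 - trT R) * ell (react R) := by
  obtain ⟨S, hS, e1, e2, e4, hmax⟩ := h.exists_max (fun k i j => (fhw fTB1 k i j : ℝ)) 76 qd
  have e3 : trT S = trT R := by
    have g1 := ell_trT h.lin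
    have g2 := ell_trT hS.lin
    rw [g1, g2] at e2
    linarith
  have := main_B1 hS (by rw [e3]; exact h1) (by rw [e3]; exact h2) hmax
  rwa [e3, e1, e4] at this

end EinsteinSix.Sl
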